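import Mathlib

namespace Pool.Agent.Results.MP_f91407_an.Power

open Polynomial Finset

/-- The coefficient vector `(a 0, …, a d)` lies in `𝒫_d`: the coefficients are nonnegative and
every complex zero of `∑_{j ≤ d} a j z ^ j` is real. -/
def InP (d : ℕ) (a : ℕ → ℝ) : Prop :=
  (∀ j ≤ d, 0 ≤ a j) ∧ ∀ z : ℂ, ∑ j ∈ range (d + 1), (a j : ℂ) * z ^ j = 0 → z.im = 0

theorem ind (P : ℝ[X] → Prop) (h0 : ∀ c : ℝ, 0 < c → P (C c))
    (h1 : ∀ (q : ℝ[X]) (r : ℝ), 0 ≤ r → P q → P ((X + C r) * q)) (n : ℕ) :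
    ∀ p : ℝ[X], p.natDegree = n → 0 < p.leadingCoeff →
      (∀ z : ℂ, aeval z p = 0 → z.im = 0 ∧ z.re ≤ 0) → P p := by
  induction n with
  | zero =>
    intro p hn hl _
    rw [eq_C_of_natDegree_eq_zero hn]
    apply h0
    rwa [leadingCoeff, hn] at hl
  | succ n ih =>
    intro p hn hl hz
    have hp0 : p ≠ 0 := by rintro rfl; simp at hn
    obtain ⟨z, hz0⟩ := IsAlgClosed.exists_aeval_eq_zero ℂ p
      (by rw [degree_eq_natDegree hp0, hn]; exact_mod_cast Nat.succ_ne_zero n)
    obtain ⟨him, hre⟩ := hz z hz0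
    have hzr : z = algebraMap ℝ ℂ z.re := by
      apply Complex.ext <;> simp [him]
    have hroot : p.IsRoot z.re := by
      rw [hzr, aeval_algebraMap_apply_eq_algebraMap_eval] at hz0
      exact (algebraMap ℝ ℂ).injective (by simpa using hz0)
    obtain ⟨q, hq⟩ := dvd_iff_isRoot.2 hroot
    have hq0 : q ≠ 0 := by rintro rfl; simp [hp0] at hq
    have e : X - C z.re = X + C (-z.re) := by simp [sub_eq_add_neg]
    have hP : P q := by
      refine ih q ?_ ?_ ?_
      · rw [hq, natDegree_mul (X_sub_C_ne_zero _) hq0, natDegree_X_sub_C] at hn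
        omega
      · rwa [hq, leadingCoeff_mul, leadingCoeff_X_sub_C, one_mul] at hl
      · intro w hw
        apply hz
        rw [hq, map_mul, hw, mul_zero]
    rw [hq, e]
    exact h1 q _ (by linarith) hP

/-- The polynomial with coefficient vector `(a 0, …, a d)`. -/
noncomputable def poly (d : ℕ) (a : ℕ → ℝ) : ℝ[X] := ∑ j ∈ range (d + 1), monomial j (a j)

theorem coeff_poly (d : ℕ) (a : ℕ → ℝ) (j : ℕ) :
    (poly d a).coeff j = if j ≤ d then a j else 0 := by
  simp only [poly, finset_sum_coeff, coeff_monomial, Finset.sum_ite_eq', mem_range,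
    Nat.lt_succ_iff]

theorem eval_poly (d : ℕ) (a : ℕ → ℝ) (x : ℝ) :
    (poly d a).eval x = ∑ j ∈ range (d + 1), a j * x ^ j := by
  simp [poly, eval_finset_sum]

theorem InP.ind {d : ℕ} {a : ℕ → ℝ} (h : InP d a) (hpos : ∀ j ≤ d, 0 < a j)
    (P : ℝ[X] → Prop) (h0 : ∀ c : ℝ, 0 < c → P (C c))
    (h1 : ∀ (q : ℝ[X]) (r : ℝ), 0 ≤ r → P q → P ((X + C r) * q)) : P (poly d a) := by
  have hd : (poly d a).natDegree = d := by
    refine natDegree_eq_of_le_of_coeff_ne_zero ?_ ?_
    · rw [natDegree_le_iff_coeff_eq_zero]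
      intro N hN
      rw [coeff_poly, if_neg (by omega)]
    · rw [coeff_poly, if_pos le_rfl]
      exact (hpos d le_rfl).ne'
  refine Power.ind P h0 h1 d _ hd ?_ ?_
  · rw [leadingCoeff, hd, coeff_poly, if_pos le_rfl]
    exact hpos d le_rfl
  · intro z hz
    have hs : aeval z (poly d a) = ∑ j ∈ range (d + 1), (a j : ℂ) * z ^ j := by
      simp [poly, map_sum, aeval_monomial]
    have him := h.2 z (hs ▸ hz)
    refine ⟨him, ?_⟩
    by_contra hre
    push Not at hre
    have hzr : z = algebraMap ℝ ℂ z.re := by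
      apply Complex.ext <;> simp [him]
    rw [hzr, aeval_algebraMap_apply_eq_algebraMap_eval] at hz
    have h2 : (poly d a).eval z.re = 0 := (algebraMap ℝ ℂ).injective (by simpa using hz)
    rw [eval_poly] at h2
    have h3 : 0 < ∑ j ∈ range (d + 1), a j * z.re ^ j :=
      Finset.sum_pos (fun j hj => mul_pos (hpos j (by simpa [Nat.lt_succ_iff] using hj))
        (pow_pos hre j)) ⟨0, by simp⟩
    exact h3.ne' h2

theorem logconc {d : ℕ} {a : ℕ → ℝ} (h : InP d a) (hpos : ∀ j ≤ d, 0 < a j) {k : ℕ}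
    (hk : k + 2 ≤ d) : a k * a (k + 2) ≤ a (k + 1) * a (k + 1) := by
  have key := h.ind hpos (fun p => (∀ j, 0 ≤ p.coeff j) ∧ ∀ i s t : ℕ,
    p.coeff i * p.coeff (i + s + t) ≤ p.coeff (i + s) * p.coeff (i + t)) ?_ ?_
  · have := key.2 k 1 1
    simp only [coeff_poly] at this
    rw [if_pos (by omega), if_pos (by omega), if_pos (by omega)] at this
    exact this
  · intro c hc
    refine ⟨fun j => by rw [coeff_C]; split_ifs <;> simp [hc.le], fun i s t => ?_⟩
    simp only [coeff_C]
    split_ifs <;> first | omega | simp | positivity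
  · rintro q r hr ⟨hq0, hq⟩
    have c0 : ((X + C r) * q).coeff 0 = r * q.coeff 0 := by simp [add_mul]
    have c1 : ∀ j, ((X + C r) * q).coeff (j + 1) = q.coeff j + r * q.coeff (j + 1) := by
      intro j; simp [add_mul, coeff_X_mul]
    refine ⟨fun j => ?_, fun i s t => ?_⟩
    · rcases j with _ | j
      · rw [c0]; exact mul_nonneg hr (hq0 _)
      · rw [c1]; exact add_nonneg (hq0 _) (mul_nonneg hr (hq0 _))
    · rcases s with _ | s
      · simp
      rcases t with _ | t
      · simp [mul_comm]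
      rcases i with _ | i
      · rw [c0, show 0 + (s + 1) + (t + 1) = (s + t + 1) + 1 by ring,
          show 0 + (s + 1) = s + 1 by ring, show 0 + (t + 1) = t + 1 by ring, c1, c1, c1]
        have e1 := hq 0 s (t + 1)
        have e2 := hq 0 (s + 1) (t + 1)
        rw [show 0 + s + (t + 1) = s + t + 1 by ring, zero_add, zero_add] at e1
        rw [show 0 + (s + 1) + (t + 1) = s + t + 1 + 1 by ring, zero_add, zero_add] at e2
        have e3 := mul_nonneg (hq0 s) (hq0 t)
        have e4 := mul_nonneg hr (mul_nonneg (hq0 (s + 1)) (hq0 t))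
        nlinarith [mul_le_mul_of_nonneg_left e1 hr,
          mul_le_mul_of_nonneg_left e2 (mul_nonneg hr hr)]
      · rw [show i + 1 + (s + 1) + (t + 1) = (i + s + t + 2) + 1 by ring,
          show i + 1 + (s + 1) = (i + s + 1) + 1 by ring,
          show i + 1 + (t + 1) = (i + t + 1) + 1 by ring, c1, c1, c1, c1]
        have e1 := hq i (s + 1) (t + 1)
        have e2 := hq (i + 1) (s + 1) (t + 1)
        have e3 := hq (i + 1) s (t + 1)
        have e4 := hq i (s + 2) (t + 1)
        rw [show i + (s + 1) + (t + 1) = i + s + t + 2 by ring,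
          show i + (s + 1) = i + s + 1 by ring, show i + (t + 1) = i + t + 1 by ring] at e1
        rw [show i + 1 + (s + 1) + (t + 1) = i + s + t + 2 + 1 by ring,
          show i + 1 + (s + 1) = i + s + 1 + 1 by ring,
          show i + 1 + (t + 1) = i + t + 1 + 1 by ring] at e2
        rw [show i + 1 + s + (t + 1) = i + s + t + 2 by ring,
          show i + 1 + s = i + s + 1 by ring, show i + 1 + (t + 1) = i + t + 1 + 1 by ring] at e3
        rw [show i + (s + 2) + (t + 1) = i + s + t + 2 + 1 by ring,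
          show i + (s + 2) = i + s + 1 + 1 by ring, show i + (t + 1) = i + t + 1 by ring] at e4
        nlinarith [mul_le_mul_of_nonneg_left e3 hr, mul_le_mul_of_nonneg_left e4 hr,
          mul_le_mul_of_nonneg_left e2 (mul_nonneg hr hr)]

theorem factor_ineq {z r l : ℝ} (hz : 0 ≤ z) (hr : 0 ≤ r) (h1 : 1 ≤ l) (h2 : l ≤ 2) :
    (z * l ^ 3 + r) * (z * l + r) ^ 5 ≤ (z * l ^ 2 + r) ^ 4 * (z + r) ^ 2 := by
  set B := z * l + r with hB
  set D := z * l ^ 2 + r with hD
  set e := z * r * (l - 1) ^ 2 with he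
  have he0 : 0 ≤ e := by positivity
  have hB0 : 0 ≤ B := by positivity
  have hBD : B ≤ D := by
    have : z * l * 1 ≤ z * l * l := mul_le_mul_of_nonneg_left h1 (by positivity)
    rw [hB, hD]; nlinarith
  have e1 : (z * l ^ 3 + r) * B ^ 5 = (D ^ 2 + l * e) * B ^ 4 := by
    rw [hB, hD, he]; ring
  have e2 : D ^ 4 * (z + r) ^ 2 = D ^ 2 * (B ^ 2 + e) ^ 2 := by
    rw [hB, hD, he]; ring
  rw [e1, e2]
  have e3 : B ^ 2 ≤ D ^ 2 := pow_le_pow_left₀ hB0 hBD 2
  have e4 : l * e * B ^ 2 * B ^ 2 ≤ 2 * e * B ^ 2 * D ^ 2 :=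
    mul_le_mul (mul_le_mul_of_nonneg_right (mul_le_mul_of_nonneg_right h2 he0) (by positivity))
      e3 (by positivity) (by positivity)
  have e5 : 0 ≤ D ^ 2 * e ^ 2 := by positivity
  nlinarith

theorem four_point {d : ℕ} {a : ℕ → ℝ} (h : InP d a) (hpos : ∀ j ≤ d, 0 < a j) {z l : ℝ}
    (hz : 0 ≤ z) (h1 : 1 ≤ l) (h2 : l ≤ 2) :
    (poly d a).eval (z * l ^ 3) * (poly d a).eval (z * l) ^ 5 ≤
      (poly d a).eval (z * l ^ 2) ^ 4 * (poly d a).eval z ^ 2 := by
  have key := h.ind hpos (fun p => (∀ x, 0 ≤ x → 0 ≤ p.eval x) ∧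
    p.eval (z * l ^ 3) * p.eval (z * l) ^ 5 ≤ p.eval (z * l ^ 2) ^ 4 * p.eval z ^ 2) ?_ ?_
  · exact key.2
  · intro c hc
    refine ⟨fun x _ => by simp [hc.le], le_of_eq ?_⟩
    simp only [eval_C]
    ring
  · rintro q r hr ⟨hq0, hq⟩
    have hl : 0 ≤ l := by linarith
    refine ⟨fun x hx => ?_, ?_⟩
    · simp only [eval_mul, eval_add, eval_X, eval_C]
      exact mul_nonneg (add_nonneg hx hr) (hq0 x hx)
    · simp only [eval_mul, eval_add, eval_X, eval_C]
      have := mul_le_mul (factor_ineq hz hr h1 h2) hq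
        (mul_nonneg (hq0 _ (by positivity)) (pow_nonneg (hq0 _ (by positivity)) _))
        (by positivity)
      calc _ = _ := by ring
        _ ≤ _ := this
        _ = _ := by ring

theorem inP_of_poly (d : ℕ) (p : ℝ[X]) (hd : p.natDegree ≤ d) (h0 : ∀ j, 0 ≤ p.coeff j)
    (hz : ∀ z : ℂ, aeval z p = 0 → z.im = 0) {c ρ : ℝ} (hc : 0 < c) (hρ : 0 < ρ) :
    InP d (fun j => c * ρ ^ j * p.coeff j) := by
  refine ⟨fun j _ => mul_nonneg (by positivity) (h0 j), fun z hzz => ?_⟩
  have h1 : aeval ((ρ : ℂ) * z) p = ∑ j ∈ range (d + 1), p.coeff j • ((ρ : ℂ) * z) ^ j :=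
    aeval_eq_sum_range' (by omega) _
  have h2 : (c : ℂ) * aeval ((ρ : ℂ) * z) p = 0 := by
    rw [h1, Finset.mul_sum, ← hzz]
    refine Finset.sum_congr rfl fun j _ => ?_
    simp only [Complex.real_smul, mul_pow]
    push_cast
    ring
  have h3 := hz _ ((mul_eq_zero.1 h2).resolve_left (by exact_mod_cast hc.ne'))
  simpa [hρ.ne'] using h3

theorem inP_binom (n : ℕ) {c ρ : ℝ} (hc : 0 < c) (hρ : 0 < ρ) :
    InP n (fun j => c * ρ ^ j * (n.choose j : ℝ)) := by
  have := inP_of_poly n ((1 + X) ^ n) ?_ ?_ ?_ hc hρ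
  · simpa only [coeff_one_add_X_pow] using this
  · refine natDegree_pow_le.trans ?_
    have : (1 + X : ℝ[X]).natDegree ≤ 1 := by compute_degree
    nlinarith
  · intro j
    rw [coeff_one_add_X_pow]
    positivity
  · intro z hz
    rw [map_pow, map_add, map_one, aeval_X] at hz
    have h1 : z = -1 := by linear_combination eq_zero_of_pow_eq_zero hz
    simp [h1]

theorem inP_quad {x w : ℝ} (hx : 0 < x) (hw : 2 * x ≤ w) :
    InP 2 (fun j => if j = 1 then w else x) := by
  refine ⟨fun j _ => by dsimp only; split_ifs <;> linarith, fun z hz => ?_⟩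
  simp only [Finset.sum_range_succ, Finset.sum_range_zero] at hz
  have hre := congrArg Complex.re hz
  have him := congrArg Complex.im hz
  simp [pow_two] at hre him
  by_contra h0
  have h1 : w + 2 * x * z.re = 0 := by
    apply mul_left_cancel₀ h0
    linarith
  have h2 : 0 < z.im * z.im := mul_self_pos.2 h0
  have h3 : w = -(2 * x * z.re) := by linarith
  have h4 : 1 ≤ -z.re := by
    by_contra h5
    nlinarith
  rw [h3] at hre
  have h5 : x * (1 - z.re * z.re - z.im * z.im) = 0 := by linarith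
  have h6 := (mul_eq_zero.1 h5).resolve_left hx.ne'
  nlinarith

theorem quad_bound {a : ℕ → ℝ} (h : InP 2 a) (h0 : 0 < a 0) (h2 : a 2 = a 0) :
    2 * a 0 ≤ a 1 := by
  by_contra hlt
  push Not at hlt
  have h1 := h.1 1 (by norm_num)
  have hD : 0 < 4 * a 0 ^ 2 - a 1 ^ 2 := by nlinarith
  have hs := Real.sq_sqrt hD.le
  have hs0 := Real.sqrt_pos.2 hD
  generalize √(4 * a 0 ^ 2 - a 1 ^ 2) = t at hs hs0
  have := h.2 ⟨-a 1 / (2 * a 0), t / (2 * a 0)⟩ ?_
  · simp only at this
    exact (div_pos hs0 (by linarith)).ne' this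
  · simp only [Finset.sum_range_succ, Finset.sum_range_zero, h2]
    apply Complex.ext
    · simp [pow_two]
      field_simp
      nlinarith
    · simp [pow_two]
      field_simp
      ring

theorem geom_le {q : ℝ} (h0 : 0 ≤ q) (h1 : q < 1) (n : ℕ) :
    ∑ j ∈ range n, q ^ j ≤ (1 - q)⁻¹ := by
  rw [← tsum_geometric_of_lt_one h0 h1]
  exact (summable_geometric_of_lt_one h0 h1).sum_le_tsum _ fun j _ => pow_nonneg h0 j

theorem pow_aux (A b : ℝ) {z : ℝ} (hz : z ≠ 0) (i j : ℕ) :
    A * b ^ (j + 1) * z ^ i = A * z ^ (j + i + 1) * (b / z) ^ (j + 1) := by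
  rw [div_pow]
  field_simp
  ring

section Main

variable {F : ℝ → ℝ} (hF : ∀ d a, InP d a → InP d (fun j => F (a j)))
include hF

theorem F_pos {x : ℝ} (hx : 0 < x) : 0 < F x := by
  have h : InP 0 (fun _ => x) := ⟨fun _ _ => hx.le, fun z hz => by simp [hx.ne'] at hz⟩
  have h2 := hF _ _ h
  refine lt_of_le_of_ne (h2.1 0 le_rfl) fun h0 => ?_
  have := h2.2 Complex.I (by simp [← h0])
  simp at this

theorem F_double {x w : ℝ} (hx : 0 < x) (hw : 2 * x ≤ w) : 2 * F x ≤ F w := by
  have := quad_bound (hF _ _ (inP_quad hx hw)) (by simpa using F_pos hF hx) (by simp)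
  simpa using this

theorem approx (m : ℕ) (u v : ℝ) :
    Real.log (F (Real.exp u)) + Real.log (F (Real.exp v)) ≤
      2 * Real.log (F (Real.exp ((u + v) / 2 + Real.log ((m + 2) / (m + 1))))) := by
  set ρ := Real.exp ((v - u) / 2) with hρ
  have hρ0 : 0 < ρ := Real.exp_pos _
  have hch : ∀ j ≤ 2 * m + 2, (0 : ℝ) < ((2 * m + 2).choose j : ℝ) := fun j hj => by
    exact_mod_cast Nat.choose_pos hj
  have hc0 := hch m (by omega)
  have hc : 0 < Real.exp u / (ρ ^ m * ((2 * m + 2).choose m : ℝ)) := by positivity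
  have key := logconc (hF _ _ (inP_binom (2 * m + 2) hc hρ0))
    (fun j hj => F_pos hF (by have := hch j hj; positivity)) (k := m) (by omega)
  have b1 : ((2 * m + 2).choose (m + 1) : ℝ) = (2 * m + 2).choose m * ((m + 2) / (m + 1)) := by
    have := Nat.choose_succ_right_eq (2 * m + 2) m
    rw [show 2 * m + 2 - m = m + 2 by omega] at this
    have h' : ((2 * m + 2).choose (m + 1) : ℝ) * (m + 1) = (2 * m + 2).choose m * (m + 2) := by
      exact_mod_cast this
    field_simp
    linarith
  have b2 : ((2 * m + 2).choose (m + 2) : ℝ) = (2 * m + 2).choose m := by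
    rw [Nat.choose_symm_of_eq_add (by ring : 2 * m + 2 = (m + 2) + m)]
  have e0 : Real.exp u / (ρ ^ m * ((2 * m + 2).choose m : ℝ)) * ρ ^ m *
      ((2 * m + 2).choose m : ℝ) = Real.exp u := by field_simp
  have e2 : Real.exp u / (ρ ^ m * ((2 * m + 2).choose m : ℝ)) * ρ ^ (m + 2) *
      ((2 * m + 2).choose (m + 2) : ℝ) = Real.exp v := by
    have : Real.exp v = Real.exp u * ρ * ρ := by
      rw [hρ, ← Real.exp_add, ← Real.exp_add]; congr 1; ring
    rw [b2, this]; field_simp; ring
  have e1 : Real.exp u / (ρ ^ m * ((2 * m + 2).choose m : ℝ)) * ρ ^ (m + 1) *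
      ((2 * m + 2).choose (m + 1) : ℝ) =
      Real.exp ((u + v) / 2 + Real.log ((m + 2) / (m + 1))) := by
    have : Real.exp ((u + v) / 2) = Real.exp u * ρ := by
      rw [hρ, ← Real.exp_add]; congr 1; ring
    rw [b1, Real.exp_add, Real.exp_log (by positivity), this]; field_simp; ring
  simp only [e0, e1, e2] at key
  have p1 := F_pos hF (Real.exp_pos u)
  have p2 := F_pos hF (Real.exp_pos v)
  have p3 := F_pos hF (Real.exp_pos ((u + v) / 2 + Real.log ((m + 2) / (m + 1))))
  rw [← Real.log_mul p1.ne' p2.ne', two_mul, ← Real.log_mul p3.ne' p3.ne']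
  exact Real.log_le_log (mul_pos p1 p2) key

theorem approx' {η : ℝ} (hη : 0 < η) : ∃ ε, 0 ≤ ε ∧ ε ≤ η ∧ ∀ u v : ℝ,
    Real.log (F (Real.exp u)) + Real.log (F (Real.exp v)) ≤
      2 * Real.log (F (Real.exp ((u + v) / 2 + ε))) := by
  obtain ⟨m, hm⟩ := exists_nat_one_div_lt hη
  have h1 : ((m : ℝ) + 2) / (m + 1) = 1 + 1 / (m + 1) := by field_simp; ring
  refine ⟨_, ?_, ?_, approx hF m⟩
  · apply Real.log_nonneg
    rw [h1]
    have : (0 : ℝ) ≤ 1 / (m + 1) := by positivity
    linarith
  · have := Real.log_le_sub_one_of_pos (show (0 : ℝ) < (m + 2) / (m + 1) by positivity)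
    rw [h1] at this ⊢
    linarith

theorem mono : Monotone fun s => Real.log (F (Real.exp s)) := by
  refine monotone_iff_forall_lt.2 fun s t hst => ?_
  by_contra hcon
  push Not at hcon
  obtain ⟨h, rfl⟩ : ∃ h, t = s + h := ⟨t - s, by ring⟩
  have hh : 0 < h := by linarith
  obtain ⟨K, hK⟩ := exists_nat_gt (2 / h)
  have hK1 : 2 < K * h := by rwa [div_lt_iff₀ hh] at hK
  have hK0 : (0 : ℝ) < K := lt_trans (by positivity) hK
  obtain ⟨ε, hε0, hε, happ⟩ := approx' hF (η := h / (2 * K)) (by positivity)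
  set φ : ℝ → ℝ := fun s => Real.log (F (Real.exp s)) with hφ
  let x : ℕ → ℝ := fun k => s + k * h - k * (k - 1) * ε
  have step : ∀ k : ℕ, φ (x (k + 1)) < φ (x k) := by
    intro k
    induction k with
    | zero => simpa [x] using hcon
    | succ k ih =>
      have := happ (x k) (x (k + 1 + 1))
      have e : (x k + x (k + 1 + 1)) / 2 + ε = x (k + 1) := by
        simp only [x]; push_cast; ring
      rw [e] at this
      simp only [hφ] at ih ⊢
      linarith
  have dec : ∀ k : ℕ, φ (x k) ≤ φ s := by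
    intro k
    induction k with
    | zero => simp [x]
    | succ k ih => exact (step k).le.trans ih
  have h1 : s + 1 ≤ x K := by
    have h2 : ε * (2 * K) ≤ h := by rwa [le_div_iff₀ (by positivity)] at hε
    simp only [x]
    nlinarith [mul_nonneg hK0.le hε0, mul_le_mul_of_nonneg_left h2 hK0.le]
  have h3 : 2 * Real.exp s ≤ Real.exp (x K) := by
    have h4 := Real.exp_le_exp.2 h1
    have h5 : (2 : ℝ) ≤ Real.exp 1 := by have := Real.add_one_le_exp (1 : ℝ); linarith
    rw [Real.exp_add] at h4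
    nlinarith [Real.exp_pos s]
  have h6 := F_double hF (Real.exp_pos s) h3
  have p1 := F_pos hF (Real.exp_pos s)
  have h7 : φ s < φ (x K) := Real.log_lt_log p1 (by linarith)
  exact absurd (dec K) (not_le.2 h7)

theorem F_mono {x y : ℝ} (hx : 0 < x) (hxy : x ≤ y) : F x ≤ F y := by
  have hy : 0 < y := lt_of_lt_of_le hx hxy
  have := mono hF (Real.log_le_log hx hxy)
  simp only [Real.exp_log hx, Real.exp_log hy] at this
  exact (Real.log_le_log_iff (F_pos hF hx) (F_pos hF hy)).1 this

theorem midconc (m h : ℝ) :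
    Real.log (F (Real.exp (m - h))) + Real.log (F (Real.exp (m + h))) ≤
      2 * Real.log (F (Real.exp m)) := by
  set φ : ℝ → ℝ := fun s => Real.log (F (Real.exp s)) with hφ
  have hm : Monotone φ := mono hF
  have strict : ∀ u v t, (u + v) / 2 < t → φ u + φ v ≤ 2 * φ t := by
    intro u v t ht
    obtain ⟨ε, -, hε, happ⟩ := approx' hF (η := t - (u + v) / 2) (by linarith)
    have h1 := happ u v
    have h2 := hm (show (u + v) / 2 + ε ≤ t by linarith)
    simp only [hφ] at h2 ⊢
    linarith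
  change φ (m - h) + φ (m + h) ≤ 2 * φ m
  have hb : BddAbove (φ '' Set.Iio m) := ⟨φ m, by rintro _ ⟨u, hu, rfl⟩; exact hm (le_of_lt hu)⟩
  have hne : (φ '' Set.Iio m).Nonempty := ⟨_, m - 1, by simp, rfl⟩
  have hL : sSup (φ '' Set.Iio m) ≤ φ m :=
    csSup_le hne (by rintro _ ⟨u, hu, rfl⟩; exact hm (le_of_lt hu))
  refine le_of_forall_pos_le_add fun δ hδ => ?_
  obtain ⟨_, ⟨u, hu, rfl⟩, hu2⟩ :=
    exists_lt_of_lt_csSup hne (show sSup (φ '' Set.Iio m) - δ / 2 < _ by linarith)
  have hu' : u < m := hu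
  have h1 := strict (m - h) (m + h) (m + (m - u) / 3) (by linarith)
  have h2 := strict u (m + (m - u) / 3) (m - (m - u) / 6) (by linarith)
  have h3 : φ (m - (m - u) / 6) ≤ sSup (φ '' Set.Iio m) :=
    le_csSup hb ⟨_, by simp only [Set.mem_Iio]; linarith, rfl⟩
  linarith

theorem ray (s h : ℝ) (m : ℕ) : F (Real.exp (s + m * h)) ≤
    F (Real.exp s) * (F (Real.exp (s + h)) / F (Real.exp s)) ^ m := by
  set φ : ℝ → ℝ := fun s => Real.log (F (Real.exp s)) with hφ
  have d1 : ∀ k : ℕ, φ (s + (k + 1 : ℕ) * h) - φ (s + k * h) ≤ φ (s + h) - φ s := by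
    intro k
    induction k with
    | zero => simp
    | succ k ih =>
      have := midconc hF (s + (k + 1 : ℕ) * h) h
      rw [show s + (k + 1 : ℕ) * h - h = s + k * h by push_cast; ring,
        show s + (k + 1 : ℕ) * h + h = s + (k + 1 + 1 : ℕ) * h by push_cast; ring] at this
      simp only [hφ] at ih ⊢
      linarith
  have d2 : ∀ k : ℕ, φ (s + k * h) ≤ φ s + k * (φ (s + h) - φ s) := by
    intro k
    induction k with
    | zero => simp
    | succ k ih =>
      have := d1 k
      push_cast at this ⊢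
      linarith
  have p1 := F_pos hF (Real.exp_pos s)
  have p2 := F_pos hF (Real.exp_pos (s + h))
  rw [← Real.log_le_log_iff (F_pos hF (Real.exp_pos _)) (by positivity),
    Real.log_mul p1.ne' (by positivity), Real.log_pow, Real.log_div p2.ne' p1.ne']
  exact d2 m

theorem midaff (s h : ℝ) (hh : 0 < h) :
    F (Real.exp s) * F (Real.exp s) ≤ F (Real.exp (s + h)) * F (Real.exp (s + -h)) := by
  by_contra hcon
  push Not at hcon
  set F0 := F (Real.exp s) with hF0
  have p0 : 0 < F0 := F_pos hF (Real.exp_pos s)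
  set α := F (Real.exp (s + h)) / F0 with hα
  set β := F (Real.exp (s + -h)) / F0 with hβ
  have pα : 0 < α := div_pos (F_pos hF (Real.exp_pos _)) p0
  have pβ : 0 < β := div_pos (F_pos hF (Real.exp_pos _)) p0
  have hαβ : α * β < 1 := by
    rw [hα, hβ, div_mul_div_comm, div_lt_one (by positivity)]
    exact hcon
  set ρ := Real.exp h with hρ
  have hρ1 : 1 < ρ := Real.one_lt_exp_iff.2 hh
  have hρ0 : 0 < ρ := by linarith
  have hch : ∀ n j : ℕ, j ≤ 2 * n → (0 : ℝ) < ((2 * n).choose j : ℝ) := fun n j hj => by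
    exact_mod_cast Nat.choose_pos hj
  let a : ℕ → ℕ → ℝ := fun n j =>
    Real.exp s / (ρ ^ n * ((2 * n).choose n : ℝ)) * ρ ^ j * ((2 * n).choose j : ℝ)
  have hc : ∀ n : ℕ, 0 < Real.exp s / (ρ ^ n * ((2 * n).choose n : ℝ)) := fun n => by
    have := hch n n (by omega)
    positivity
  have apos : ∀ n j, j ≤ 2 * n → 0 < a n j := fun n j hj => by
    have := hch n j hj
    have := hc n
    simp only [a]
    positivity
  have ale : ∀ n j, a n j ≤ Real.exp s * ρ ^ j / ρ ^ n := by
    intro n j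
    have h1 : ((2 * n).choose j : ℝ) ≤ (2 * n).choose n := by
      exact_mod_cast Nat.choose_le_centralBinom j n
    have h2 := hch n n (by omega)
    calc a n j ≤ Real.exp s / (ρ ^ n * ((2 * n).choose n : ℝ)) * ρ ^ j * ((2 * n).choose n : ℝ) :=
          mul_le_mul_of_nonneg_left h1 (by have := hc n; positivity)
      _ = _ := by field_simp
  have amid : ∀ n, a n n = Real.exp s := fun n => by
    have h2 := hch n n (by omega)
    simp only [a]
    field_simp
  have hin : ∀ n, InP (2 * n) (fun j => F (a n j)) := fun n =>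
    hF _ _ (inP_binom (2 * n) (hc n) hρ0)
  have hpos : ∀ n j, j ≤ 2 * n → 0 < F (a n j) := fun n j hj => F_pos hF (apos n j hj)
  let E : ℕ → ℝ → ℝ := fun n z => (poly (2 * n) (fun j => F (a n j))).eval z
  have hE : ∀ n z, E n z = ∑ j ∈ range (2 * n + 1), F (a n j) * z ^ j := fun n z => eval_poly _ _ _
  have hterm : ∀ n z, 0 < z → ∀ j ∈ range (2 * n + 1), 0 ≤ F (a n j) * z ^ j :=
    fun n z hz j hj => (mul_pos (hpos n j (by simpa [Nat.lt_succ_iff] using hj))
      (pow_pos hz j)).le
  have low : ∀ n z, 0 < z → F0 * z ^ n ≤ E n z := by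
    intro n z hz
    rw [hE, hF0, ← amid n]
    exact Finset.single_le_sum (f := fun j => F (a n j) * z ^ j) (hterm n z hz)
      (mem_range.2 (by omega))
  let Bd : ℝ → Prop := fun z => ∃ M, ∀ n, E n z ≤ M * z ^ n
  have base : ∀ z, β < z → α * z < 1 → Bd z := by
    intro z h1 h2
    have hz : 0 < z := pβ.trans h1
    have h3 : β / z < 1 := (div_lt_one hz).2 h1
    refine ⟨F0 * (1 - β / z)⁻¹ + F0 * (1 - α * z)⁻¹, fun n => ?_⟩
    rw [hE, show 2 * n + 1 = n + (n + 1) by ring, Finset.sum_range_add, add_mul,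
      ← Finset.sum_range_reflect]
    refine add_le_add ?_ ?_
    · calc _ ≤ ∑ j ∈ range n, F0 * z ^ n * (β / z) ^ j := by
            refine Finset.sum_le_sum fun j hj => ?_
            obtain ⟨i, rfl⟩ := Nat.exists_eq_add_of_lt (mem_range.1 hj)
            rw [show j + i + 1 - 1 - j = i by omega]
            have r1 := ray hF s (-h) (j + 1)
            have r2 : a (j + i + 1) i ≤ Real.exp (s + (j + 1 : ℕ) * -h) := by
              refine (ale _ _).trans (le_of_eq ?_)
              rw [Real.exp_add, mul_neg, Real.exp_neg, Real.exp_nat_mul, ← hρ]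
              field_simp
              ring
            have r3 := (F_mono hF (apos _ _ (by omega)) r2).trans r1
            have r4 : (β / z) ^ (j + 1) ≤ (β / z) ^ j :=
              pow_le_pow_of_le_one (by positivity) h3.le (by omega)
            calc F (a (j + i + 1) i) * z ^ i ≤ F0 * β ^ (j + 1) * z ^ i :=
                  mul_le_mul_of_nonneg_right r3 (by positivity)
              _ = F0 * z ^ (j + i + 1) * (β / z) ^ (j + 1) := pow_aux _ _ hz.ne' i j
              _ ≤ _ := mul_le_mul_of_nonneg_left r4 (by positivity)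
        _ ≤ _ := by
            rw [← Finset.mul_sum]
            have := mul_le_mul_of_nonneg_left (geom_le (by positivity) h3 n)
              (show 0 ≤ F0 * z ^ n by positivity)
            linarith
    · calc _ ≤ ∑ j ∈ range (n + 1), F0 * z ^ n * (α * z) ^ j := by
            refine Finset.sum_le_sum fun j hj => ?_
            have hj' := mem_range.1 hj
            have r1 := ray hF s h j
            have r2 : a n (n + j) ≤ Real.exp (s + j * h) := by
              refine (ale _ _).trans (le_of_eq ?_)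
              rw [Real.exp_add, Real.exp_nat_mul, ← hρ]
              field_simp
              ring
            have r3 := (F_mono hF (apos _ _ (by omega)) r2).trans r1
            calc F (a n (n + j)) * z ^ (n + j) ≤ F0 * α ^ j * z ^ (n + j) :=
                  mul_le_mul_of_nonneg_right r3 (by positivity)
              _ = _ := by ring
        _ ≤ _ := by
            rw [← Finset.mul_sum]
            have := mul_le_mul_of_nonneg_left (geom_le (by positivity) h2 (n + 1))
              (show 0 ≤ F0 * z ^ n by positivity)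
            linarith
  have prop : ∀ z l, 0 < z → 1 ≤ l → l ≤ 2 → Bd z → Bd (z * l ^ 2) → Bd (z * l ^ 3) := by
    rintro z l hz h1 h2 ⟨M0, hM0⟩ ⟨M2, hM2⟩
    have hl : 0 < l := by linarith
    refine ⟨M2 ^ 4 * M0 ^ 2 / F0 ^ 5, fun n => ?_⟩
    have k1 : E n (z * l ^ 3) * E n (z * l) ^ 5 ≤ E n (z * l ^ 2) ^ 4 * E n z ^ 2 :=
      four_point (hin n) (hpos n) hz.le h1 h2
    have q : ∀ w, 0 < w → 0 ≤ E n w := fun w hw => le_trans (by positivity) (low n w hw)
    have k2 : E n (z * l ^ 2) ^ 4 * E n z ^ 2 ≤ (M2 * (z * l ^ 2) ^ n) ^ 4 * (M0 * z ^ n) ^ 2 :=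
      mul_le_mul (pow_le_pow_left₀ (q _ (by positivity)) (hM2 n) 4)
        (pow_le_pow_left₀ (q _ hz) (hM0 n) 2) (by positivity) (by positivity)
    have k3 : E n (z * l ^ 3) * (F0 * (z * l) ^ n) ^ 5 ≤ E n (z * l ^ 3) * E n (z * l) ^ 5 :=
      mul_le_mul_of_nonneg_left (pow_le_pow_left₀ (by positivity) (low n _ (by positivity)) 5)
        (q _ (by positivity))
    have k4 := k3.trans (k1.trans k2)
    rw [← le_div_iff₀ (by positivity)] at k4
    refine k4.trans (le_of_eq ?_)
    simp only [mul_pow]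
    field_simp
    ring
  have top : ∀ w, 1 ≤ w → ¬ Bd w := by
    rintro w hw ⟨M, hM⟩
    have hw0 : 0 < w := by linarith
    obtain ⟨K, hK⟩ := exists_nat_gt (M / F0)
    obtain ⟨n, hn⟩ := exists_nat_gt (((ρ + 1) * K + 1) / (ρ - 1) + K)
    have hq : 0 ≤ ((ρ + 1) * K + 1) / (ρ - 1) := div_nonneg (by positivity) (by linarith)
    have hKn : K ≤ n := by exact_mod_cast (show (K : ℝ) ≤ n by linarith)
    have hn2 : (ρ + 1) * K + 1 ≤ n * (ρ - 1) := by
      rw [← div_le_iff₀ (by linarith)]
      have : (0 : ℝ) ≤ K := by positivity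
      linarith
    have up : ∀ m, m ≤ K → Real.exp s ≤ a n (n + m) := by
      intro m
      induction m with
      | zero => intro _; simp [amid]
      | succ m ih =>
        intro hm
        refine (ih (by omega)).trans ?_
        have t1 := Nat.choose_succ_right_eq (2 * n) (n + m)
        obtain ⟨g, hg⟩ := Nat.exists_eq_add_of_le (show m ≤ n by omega)
        rw [show 2 * n - (n + m) = g by omega] at t1
        have t2 : ((2 * n).choose (n + m + 1) : ℝ) * (n + m + 1) = (2 * n).choose (n + m) * g := by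
          exact_mod_cast t1
        have t3 : (n : ℝ) = m + g := by exact_mod_cast hg
        have t4 : (m : ℝ) + 1 ≤ K := by exact_mod_cast hm
        have t5 : (n : ℝ) + m + 1 ≤ ρ * g := by nlinarith
        have t6 : ((2 * n).choose (n + m) : ℝ) ≤ ρ * (2 * n).choose (n + m + 1) := by
          have t7 := hch n (n + m) (by omega)
          have t8 : (0 : ℝ) < n + m + 1 := by positivity
          refine le_of_mul_le_mul_right ?_ t8
          rw [mul_assoc, t2]
          nlinarith
        have t9 := mul_le_mul_of_nonneg_left t6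
          (show 0 ≤ Real.exp s / (ρ ^ n * ((2 * n).choose n : ℝ)) * ρ ^ (n + m) by
            have := hc n; positivity)
        simp only [a]
        rw [← add_assoc, pow_succ]
        linarith
    have s1 : ∑ m ∈ range K, F0 * w ^ n ≤ ∑ m ∈ range K, F (a n (n + m)) * w ^ (n + m) := by
      refine Finset.sum_le_sum fun m hm => ?_
      exact mul_le_mul (F_mono hF (Real.exp_pos s) (up m (mem_range.1 hm).le))
        (pow_le_pow_right₀ hw (by omega)) (by positivity)
        (hpos n _ (by have := mem_range.1 hm; omega)).le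
    have s2 : ∑ m ∈ range K, F (a n (n + m)) * w ^ (n + m) ≤ E n w := by
      rw [hE, show 2 * n + 1 = n + (n + 1) by ring, Finset.sum_range_add]
      have u1 : 0 ≤ ∑ j ∈ range n, F (a n j) * w ^ j :=
        Finset.sum_nonneg fun j hj => hterm n w hw0 j
          (mem_range.2 (by have := mem_range.1 hj; omega))
      have u2 : ∑ m ∈ range K, F (a n (n + m)) * w ^ (n + m) ≤
          ∑ m ∈ range (n + 1), F (a n (n + m)) * w ^ (n + m) :=
        Finset.sum_le_sum_of_subset_of_nonneg (Finset.range_mono (by omega))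
          fun j hj _ => hterm n w hw0 _ (mem_range.2 (by have := mem_range.1 hj; omega))
      linarith
    have s3 := s1.trans (s2.trans (hM n))
    rw [Finset.sum_const, card_range, nsmul_eq_mul, ← mul_assoc] at s3
    have s4 := le_of_mul_le_mul_right s3 (pow_pos hw0 n)
    rw [div_lt_iff₀ p0] at hK
    linarith
  obtain ⟨l, hl1, hl2, hl3⟩ : ∃ l : ℝ, 1 < l ∧ l ≤ 2 ∧ α * β * l ^ 3 < 1 := by
    have hcont : ContinuousAt (fun l : ℝ => α * β * l ^ 3) 1 := by fun_prop
    have ev : ∀ᶠ l in nhds (1 : ℝ), α * β * l ^ 3 < 1 :=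
      hcont.eventually (gt_mem_nhds (by simpa using hαβ))
    have ev2 : ∀ᶠ l in nhds (1 : ℝ), l < 2 := gt_mem_nhds (by norm_num)
    obtain ⟨l, ⟨h1, h2⟩, h3⟩ := (((ev.and ev2).filter_mono nhdsWithin_le_nhds).and
      (self_mem_nhdsWithin (a := (1 : ℝ)) (s := Set.Ioi 1))).exists
    exact ⟨l, h3, h2.le, h1⟩
  have hl0 : 0 < l := by linarith
  have b0 : ∀ k, 1 ≤ k → k ≤ 3 → Bd (β * l ^ k) := by
    intro k hk1 hk3
    refine base _ (lt_mul_of_one_lt_right pβ (one_lt_pow₀ hl1 (by omega))) ?_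
    have := mul_le_mul_of_nonneg_left (pow_le_pow_right₀ hl1.le hk3) (mul_pos pα pβ).le
    rw [← mul_assoc]
    linarith
  have ball : ∀ k, Bd (β * l ^ (k + 1)) ∧ Bd (β * l ^ (k + 2)) ∧ Bd (β * l ^ (k + 3)) := by
    intro k
    induction k with
    | zero => exact ⟨b0 _ (by omega) (by omega), b0 _ (by omega) (by omega),
        b0 _ (by omega) (by omega)⟩
    | succ k ih =>
      refine ⟨ih.2.1, ih.2.2, ?_⟩
      have := prop (β * l ^ (k + 1)) l (by positivity) hl1.le hl2 ih.1
        (by rw [mul_assoc, ← pow_add]; exact ih.2.2)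
      rwa [mul_assoc, ← pow_add] at this
  obtain ⟨k, hk⟩ := pow_unbounded_of_one_lt (1 / β) hl1
  refine top _ ?_ (ball k).1
  rw [div_lt_iff₀ pβ] at hk
  have : β * l ^ k ≤ β * l ^ (k + 1) :=
    mul_le_mul_of_nonneg_left (pow_le_pow_right₀ hl1.le (Nat.le_succ k)) pβ.le
  rw [mul_comm] at hk
  exact hk.le.trans this

end Main

theorem result (F : ℝ → ℝ) (hF : ∀ d a, InP d a → InP d (fun j => F (a j))) :
    ∃ c a : ℝ, 0 < c ∧ 1 ≤ a ∧ ∀ x : ℝ, 0 < x → F x = c * x ^ a := by
  set φ : ℝ → ℝ := fun s => Real.log (F (Real.exp s)) with hφ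
  have hm : Monotone φ := mono hF
  have mid : ∀ s h, φ (s + h) + φ (s - h) = 2 * φ s := by
    have pos : ∀ s h, 0 < h → φ (s + h) + φ (s - h) = 2 * φ s := by
      intro s h hh
      have h1 := midconc hF s h
      have h2 := Real.log_le_log (mul_pos (F_pos hF (Real.exp_pos _)) (F_pos hF (Real.exp_pos _)))
        (midaff hF s h hh)
      rw [Real.log_mul (F_pos hF (Real.exp_pos _)).ne' (F_pos hF (Real.exp_pos _)).ne',
        Real.log_mul (F_pos hF (Real.exp_pos _)).ne' (F_pos hF (Real.exp_pos _)).ne',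
        ← sub_eq_add_neg] at h2
      simp only [hφ]
      linarith
    intro s h
    rcases lt_trichotomy h 0 with hh | rfl | hh
    · have := pos s (-h) (by linarith)
      rw [← sub_eq_add_neg, sub_neg_eq_add] at this
      linarith
    · simp only [add_zero, sub_zero]; ring
    · exact pos s h hh
  let ψ : ℝ →+ ℝ := AddMonoidHom.mk' (fun s => φ s - φ 0) fun x y => by
    have h1 := mid ((x + y) / 2) ((x + y) / 2)
    have h2 := mid ((x + y) / 2) ((x - y) / 2)
    rw [show (x + y) / 2 + (x + y) / 2 = x + y by ring, sub_self] at h1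
    rw [show (x + y) / 2 + (x - y) / 2 = x by ring,
      show (x + y) / 2 - (x - y) / 2 = y by ring] at h2
    linarith
  have hψ : ∀ s, ψ s = φ s - φ 0 := fun _ => rfl
  have hcont : Continuous ψ := by
    refine ψ.continuous_of_isBounded_nhds_zero (s := Set.Icc (-1) 1)
      (Icc_mem_nhds (by norm_num) (by norm_num)) ?_
    refine (Metric.isBounded_Icc (ψ (-1)) (ψ 1)).subset ?_
    rintro _ ⟨x, hx, rfl⟩
    simp only [Set.mem_Icc, hψ]
    exact ⟨by linarith [hm hx.1], by linarith [hm hx.2]⟩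
  have hlin : ∀ s, φ s = φ 0 + s * ψ 1 := by
    intro s
    have := map_real_smul ψ hcont s 1
    rw [smul_eq_mul, mul_one, smul_eq_mul, hψ] at this
    linarith
  have form : ∀ x : ℝ, 0 < x → F x = F 1 * x ^ ψ 1 := by
    intro x hx
    have h1 := hlin (Real.log x)
    simp only [hφ, Real.exp_log hx, Real.exp_zero] at h1
    rw [Real.rpow_def_of_pos hx, ← Real.exp_log (F_pos hF hx), h1, Real.exp_add,
      Real.exp_log (F_pos hF one_pos)]
  refine ⟨F 1, ψ 1, F_pos hF one_pos, ?_, form⟩
  have h1 := F_double hF one_pos (w := 2) (by norm_num)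
  rw [form 2 two_pos, mul_comm] at h1
  have h2 := le_of_mul_le_mul_left h1 (F_pos hF one_pos)
  rw [← Real.rpow_le_rpow_left_iff (x := 2) (by norm_num), Real.rpow_one]
  exact h2

end Pool.Agent.Results.MP_f91407_an.Power
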